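import Pool.Agent.Lib.MP_2c9a54_an.Necessity
import Pool.Agent.Lib.MP_2c9a54_an.CaseOne
import Pool.Agent.Lib.MP_2c9a54_an.CaseTwoMain

/-!
# Bounded solutions of `x_{n+1} = 1 / (B_n x_n + x_{n-1})`, `B` periodic (MP_2c9a54_an)

For a `k`-periodic sequence `B ≥ 0`, all positive solutions are bounded if the class condition and
the cycle condition hold, and no positive solution is bounded otherwise.
-/

namespace Pool.Agent.Results.MP_2c9a54_an.BoundedIff

open Pool.Agent.Lib.MP_2c9a54_an

/-- Let `k ≥ 1` and let `B ≥ 0` be `k`-periodic.  If the class condition and the cycle condition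
hold, every positive solution of `x_{n+1} = 1 / (B_n x_n + x_{n-1})` is bounded; if one of the two
conditions fails, every positive solution is unbounded. -/
theorem result (k : ℕ) (hk : 1 ≤ k) (B : ℕ → ℝ) (hB : ∀ n, 0 ≤ B n)
    (hper : ∀ n, B (n + k) = B n) :
    (ClassCond B ∧ CycleCond k B → ∀ X, IsSol B X → Bdd X) ∧
      (¬ (ClassCond B ∧ CycleCond k B) → ∀ X, IsSol B X → ¬ Bdd X) := by
  constructor
  · rintro ⟨hcls, hcyc⟩ X hX
    by_cases h : ∀ r, ∃ j, B (r + 4 * j) ≠ 0
    · exact bdd_of_no_zero_class hk hB hper hcyc h hX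
    · push Not at h
      obtain ⟨r, hr⟩ := h
      exact bdd_of_zero_class hk hB hper (classCondAux_of hk hper hcls) hr hX
  · intro h X hX
    by_cases hcls : ClassCond B
    · have hcyc : ¬ CycleCond k B := fun hc => h ⟨hcls, hc⟩
      unfold CycleCond at hcyc
      push Not at hcyc
      obtain ⟨J, hJ1, -, p, t, -, hpt, hmod, hprod⟩ := hcyc
      exact unbdd_of_cycle hk hB hper hJ1 hpt hmod hprod hX
    · obtain ⟨r, hr, n, hn, hBn⟩ := exists_of_not_classCond hcls
      obtain ⟨j₀, hj₀⟩ : ∃ j₀, B (r + 2 + 4 * j₀) ≠ 0 := by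
        have h2 : B (n + (4 * (r + 2)) * k) = B n := per_mul hper _ _
        have h3 : r + 2 ≤ n + (4 * (r + 2)) * k := by nlinarith
        have h4 : (n + (4 * (r + 2)) * k) % 4 = (r + 2) % 4 := by
          rw [mul_assoc, Nat.add_mul_mod_self_left]; exact hn
        obtain ⟨i, hi⟩ : ∃ i, n + (4 * (r + 2)) * k = r + 2 + 4 * i :=
          ⟨(n + (4 * (r + 2)) * k - (r + 2)) / 4, by omega⟩
        exact ⟨i, by rw [← hi, h2]; exact hBn⟩
      exact unbdd_of_class hk hB hper hr hj₀ hX

end Pool.Agent.Results.MP_2c9a54_an.BoundedIff
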